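import Mathlib

set_option autoImplicit false

namespace Pool.Agent.W25.EGZ

/-- A multiple of `N` in `[0, 2N]` is `0`, `N` or `2N`. -/
theorem mult_cases {N X : ℤ} (hN : 0 < N) (h : N ∣ X) (h0 : 0 ≤ X) (h2 : X ≤ 2 * N) :
    X = 0 ∨ X = N ∨ X = 2 * N := by
  obtain ⟨k, rfl⟩ := h
  have hk0 : 0 ≤ k := by
    by_contra hk
    have : N * k < 0 := mul_neg_of_pos_of_neg hN (by omega)
    omega
  have hk2 : k ≤ 2 := by
    by_contra hk
    have : N * 3 ≤ N * k := mul_le_mul_of_nonneg_left (by omega) hN.le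
    omega
  have : k = 0 ∨ k = 1 ∨ k = 2 := by omega
  rcases this with rfl | rfl | rfl
  · left; ring
  · right; left; ring
  · right; right; ring

/-- A multiple of `N` in `[0, N]` is `0` or `N`. -/
theorem mult_cases' {N X : ℤ} (hN : 0 < N) (h : N ∣ X) (h0 : 0 ≤ X) (h2 : X ≤ N) :
    X = 0 ∨ X = N := by
  rcases mult_cases hN h h0 (by omega) with h | h | h
  · left; exact h
  · right; exact h
  · omega

/-- Two multiplicities summing to `N`, one of them a multiple of `N`. -/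
theorem two {N x y : ℤ} (hN : 0 < N) (_hx : 0 ≤ x) (hy : 0 ≤ y) (ux : x < N) (uy : y < N)
    (tot : x + y = N) (h : N ∣ y) : False := by
  rcases mult_cases' hN h hy uy.le with h | h <;> omega

/-- The edge `A = 0`. -/
theorem edge1 {q N : ℤ} (hNpos : 0 < N) (comb : ∀ X : ℤ, q ∣ X → (3 : ℤ) ∣ X → N ∣ X)
    {c0 c1 c4 c5 c6 c7 k : ℤ}
    (h0 : 0 ≤ c0) (h1 : 0 ≤ c1) (h4 : 0 ≤ c4) (h5 : 0 ≤ c5)
    (h6 : 0 ≤ c6) (h7 : 0 ≤ c7) (hk : 0 ≤ k)
    (u0 : c0 < N) (u1 : c1 < N) (u4 : c4 < N) (u5 : c5 < N)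
    (u6 : c6 < N) (u7 : c7 < N) (uk : k ≤ 1)
    (tot : c0 + c1 + c4 + c5 + c6 + c7 + k = N)
    (hC : N ∣ 2 * c1 + c4 + c5 + c6 + c7 + 2 * k)
    (hB0 : q ∣ c0 + c5 + c7) (hB3 : (3 : ℤ) ∣ c0 + c5 + c7 + k)
    (hD0 : q ∣ c0 + c6 + c7) (hD3 : (3 : ℤ) ∣ c0 + c6 + c7) : False := by
  rcases mult_cases' hNpos (comb _ hD0 hD3) (by omega) (by omega) with hDz | hDz
  · have z0 : c0 = 0 := by omega
    have z6 : c6 = 0 := by omega
    have z7 : c7 = 0 := by omega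
    subst z0 z6 z7
    rcases mult_cases hNpos hC (by omega) (by omega) with hCz | hCz | hCz
    · omega
    · have zk : k = 0 := by omega
      have z1 : c1 = 0 := by omega
      subst zk z1
      exact two hNpos h4 h5 u4 u5 (by omega) (comb _ (by simpa using hB0) (by simpa using hB3))
    · have z5 : c5 = 0 := by omega
      subst z5
      have : (3 : ℤ) ∣ k := by simpa using hB3
      omega
  · have z1 : c1 = 0 := by omega
    have z4 : c4 = 0 := by omega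
    have z5 : c5 = 0 := by omega
    have zk : k = 0 := by omega
    subst z1 z4 z5 zk
    rcases mult_cases' hNpos hC (by omega) (by omega) with hCz | hCz
    · omega
    · have z0 : c0 = 0 := by omega
      subst z0
      exact two hNpos h6 h7 u6 u7 (by omega) (comb _ (by simpa using hB0) (by simpa using hB3))

/-- The edge `C = 0`. -/
theorem edge2 {q N : ℤ} (hNpos : 0 < N) (comb : ∀ X : ℤ, q ∣ X → (3 : ℤ) ∣ X → N ∣ X)
    {c0 c2 c3 c8 c9 c10 c11 : ℤ}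
    (h0 : 0 ≤ c0) (h2 : 0 ≤ c2) (h3 : 0 ≤ c3) (h8 : 0 ≤ c8) (h9 : 0 ≤ c9) (h10 : 0 ≤ c10)
    (h11 : 0 ≤ c11)
    (u0 : c0 < N) (u2 : c2 < N) (u3 : c3 < N) (u8 : c8 < N) (u9 : c9 < N) (u10 : c10 < N)
    (u11 : c11 < N)
    (tot : c0 + c2 + c3 + c8 + c9 + c10 + c11 = N)
    (hA : 2 * c2 + 2 * c3 + c8 + c9 + c10 + c11 = N)
    (hB0 : q ∣ c0 + c2 + c8 + c9) (hB3 : (3 : ℤ) ∣ c0 + c2 + c8 + c9)
    (hD0 : q ∣ c0 + c3 + c9 + c11) (hD3 : (3 : ℤ) ∣ c0 + c3 + c9 + c11 + c2 + c9) : False := by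
  rcases mult_cases' hNpos (comb _ hB0 hB3) (by omega) (by omega) with hBz | hBz
  · have z0 : c0 = 0 := by omega
    have z2 : c2 = 0 := by omega
    have z8 : c8 = 0 := by omega
    have z9 : c9 = 0 := by omega
    have z3 : c3 = 0 := by omega
    subst z0 z2 z8 z9 z3
    exact two hNpos h10 h11 u10 u11 (by omega) (comb _ (by simpa using hD0) (by simpa using hD3))
  · have z3 : c3 = 0 := by omega
    have z10 : c10 = 0 := by omega
    have z11 : c11 = 0 := by omega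
    have e02 : c2 = c0 := by omega
    subst z3 z10 z11 e02
    have hq' : q ∣ c2 + c9 := by simpa using hD0
    have h3' : (3 : ℤ) ∣ c2 + c9 := by
      have : (3 : ℤ) ∣ c2 + c9 + c2 + c9 := by simpa using hD3
      omega
    rcases mult_cases' hNpos (comb _ hq' h3') (by omega) (by omega) with h | h <;> omega

/-- The edge `A + C = 2`. -/
theorem edge3 {q N : ℤ} (hNpos : 0 < N) (comb : ∀ X : ℤ, q ∣ X → (3 : ℤ) ∣ X → N ∣ X)
    {c1 c2 c3 c12 c13 c14 c15 k : ℤ}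
    (h1 : 0 ≤ c1) (h2 : 0 ≤ c2) (h3 : 0 ≤ c3)
    (h12 : 0 ≤ c12) (h13 : 0 ≤ c13) (h14 : 0 ≤ c14) (h15 : 0 ≤ c15) (hk : 0 ≤ k)
    (u12 : c12 < N) (u13 : c13 < N) (u14 : c14 < N) (u15 : c15 < N)
    (tot : c1 + c2 + c3 + c12 + c13 + c14 + c15 + k = N)
    (hA : 2 * c2 + 2 * c3 + c12 + c13 + c14 + c15 = N)
    (hB0 : q ∣ c2 + c13 + c15) (hB3 : (3 : ℤ) ∣ c2 + c13 + c15 + k)
    (hD0 : q ∣ c3 - c13 + c14) (hD3 : (3 : ℤ) ∣ c3 + c14 + c2 + c15) : False := by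
  have hq' : q ∣ c3 + c14 + c2 + c15 := by
    have h := dvd_add hD0 hB0
    have e1 : (c3 - c13 + c14) + (c2 + c13 + c15) = c3 + c14 + c2 + c15 := by ring
    rwa [e1] at h
  rcases mult_cases' hNpos (comb _ hq' hD3) (by omega) (by omega) with h | h
  · have z2 : c2 = 0 := by omega
    have z3 : c3 = 0 := by omega
    have z14 : c14 = 0 := by omega
    have z15 : c15 = 0 := by omega
    have z1 : c1 = 0 := by omega
    have zk : k = 0 := by omega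
    subst z2 z3 z14 z15 z1 zk
    exact two hNpos h12 h13 u12 u13 (by omega) (comb _ (by simpa using hB0) (by simpa using hB3))
  · have z1 : c1 = 0 := by omega
    have z12 : c12 = 0 := by omega
    have z13 : c13 = 0 := by omega
    have zk : k = 0 := by omega
    have z2 : c2 = 0 := by omega
    have z3 : c3 = 0 := by omega
    subst z1 z12 z13 zk z2 z3
    exact two hNpos h14 h15 u14 u15 (by omega) (comb _ (by simpa using hB0) (by simpa using hB3))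

theorem zeros10 {a1 a2 a3 a4 a5 a6 a7 a8 a9 a10 : ℤ} (h1 : 0 ≤ a1) (h2 : 0 ≤ a2) (h3 : 0 ≤ a3)
    (h4 : 0 ≤ a4) (h5 : 0 ≤ a5) (h6 : 0 ≤ a6) (h7 : 0 ≤ a7) (h8 : 0 ≤ a8) (h9 : 0 ≤ a9)
    (h10 : 0 ≤ a10) (h : a1 + a2 + a3 + a4 + a5 + a6 + a7 + a8 + a9 + a10 ≤ 0) :
    a1 = 0 ∧ a2 = 0 ∧ a3 = 0 ∧ a4 = 0 ∧ a5 = 0 ∧ a6 = 0 ∧ a7 = 0 ∧ a8 = 0 ∧ a9 = 0 ∧ a10 = 0 := by
  refine ⟨?_, ?_, ?_, ?_, ?_, ?_, ?_, ?_, ?_, ?_⟩ <;> linarith

/-- The arithmetic core.  The seventeen unknowns are the multiplicities of the seventeen vectors. -/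
theorem core {q N e : ℤ} (hN : N = q * 3) (hq : 0 < q) (hcop : IsCoprime q 3)
    (heq : q ∣ e) (he3 : (3 : ℤ) ∣ e - 1)
    {c0 c1 c2 c3 c4 c5 c6 c7 c8 c9 c10 c11 c12 c13 c14 c15 k : ℤ}
    (h0 : 0 ≤ c0) (h1 : 0 ≤ c1) (h2 : 0 ≤ c2) (h3 : 0 ≤ c3) (h4 : 0 ≤ c4) (h5 : 0 ≤ c5)
    (h6 : 0 ≤ c6) (h7 : 0 ≤ c7) (h8 : 0 ≤ c8) (h9 : 0 ≤ c9) (h10 : 0 ≤ c10) (h11 : 0 ≤ c11)
    (h12 : 0 ≤ c12) (h13 : 0 ≤ c13) (h14 : 0 ≤ c14) (h15 : 0 ≤ c15) (hk : 0 ≤ k)
    (u0 : c0 < N) (u1 : c1 < N) (u2 : c2 < N) (u3 : c3 < N) (u4 : c4 < N) (u5 : c5 < N)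
    (u6 : c6 < N) (u7 : c7 < N) (u8 : c8 < N) (u9 : c9 < N) (u10 : c10 < N) (u11 : c11 < N)
    (u12 : c12 < N) (u13 : c13 < N) (u14 : c14 < N) (u15 : c15 < N) (uk : k ≤ 1)
    (tot : c0 + c1 + c2 + c3 + c4 + c5 + c6 + c7 + c8 + c9 + c10 + c11 + c12 + c13 + c14 + c15
      + k = N)
    (hA : N ∣ 2 * c2 + 2 * c3 + c8 + c9 + c10 + c11 + c12 + c13 + c14 + c15)
    (hC : N ∣ 2 * c1 + c4 + c5 + c6 + c7 + c12 + c13 + c14 + c15 + 2 * k)
    (hB : N ∣ c0 + c2 + c5 + c7 + c8 + c9 + c13 + c15 + e * k)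
    (hD : N ∣ c0 + e * c2 + c3 + c6 + c7 + (1 + e) * c9 + c11 + (e - 1) * c13 + c14 + e * c15) :
    False := by
  have hNpos : 0 < N := by rw [hN]; positivity
  have hqN : q ∣ N := ⟨3, hN⟩
  have h3N : (3 : ℤ) ∣ N := ⟨q, by rw [hN]; ring⟩
  have comb : ∀ X : ℤ, q ∣ X → (3 : ℤ) ∣ X → N ∣ X := by
    intro X hX hX3
    rw [hN]; exact hcop.mul_dvd hX hX3
  -- the two projections of `hB` and `hD`
  have hB0 : q ∣ c0 + c2 + c5 + c7 + c8 + c9 + c13 + c15 := by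
    have := dvd_sub (hqN.trans hB) (heq.mul_right k)
    have e1 : c0 + c2 + c5 + c7 + c8 + c9 + c13 + c15 + e * k - e * k
      = c0 + c2 + c5 + c7 + c8 + c9 + c13 + c15 := by ring
    rwa [e1] at this
  have hB3 : (3 : ℤ) ∣ c0 + c2 + c5 + c7 + c8 + c9 + c13 + c15 + k := by
    have := dvd_sub (h3N.trans hB) (he3.mul_right k)
    have e1 : c0 + c2 + c5 + c7 + c8 + c9 + c13 + c15 + e * k - (e - 1) * k
      = c0 + c2 + c5 + c7 + c8 + c9 + c13 + c15 + k := by ring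
    rwa [e1] at this
  have hD0 : q ∣ c0 + c3 + c6 + c7 + c9 + c11 - c13 + c14 := by
    have := dvd_sub (hqN.trans hD) (heq.mul_right (c2 + c9 + c13 + c15))
    have e1 : c0 + e * c2 + c3 + c6 + c7 + (1 + e) * c9 + c11 + (e - 1) * c13 + c14 + e * c15
      - e * (c2 + c9 + c13 + c15) = c0 + c3 + c6 + c7 + c9 + c11 - c13 + c14 := by ring
    rwa [e1] at this
  have hD3 : (3 : ℤ) ∣ c0 + c3 + c6 + c7 + c9 + c11 + c14 + c2 + c9 + c15 := by
    have := dvd_sub (h3N.trans hD) (he3.mul_right (c2 + c9 + c13 + c15))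
    have e1 : c0 + e * c2 + c3 + c6 + c7 + (1 + e) * c9 + c11 + (e - 1) * c13 + c14 + e * c15
      - (e - 1) * (c2 + c9 + c13 + c15) = c0 + c3 + c6 + c7 + c9 + c11 + c14 + c2 + c9 + c15 := by
      ring
    rwa [e1] at this
  clear hB hD hcop heq he3 hqN h3N hq hN
  rcases mult_cases hNpos hA (by linarith) (by linarith) with hA | hA | hA
  · -- everything lies on the edge `A = 0`
    obtain ⟨z2, z3, z8, z9, z10, z11, z12, z13, z14, z15⟩ :=
      zeros10 h2 h3 h8 h9 h10 h11 h12 h13 h14 h15 (by linarith)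
    subst z2 z3 z8 z9 z10 z11 z12 z13 z14 z15
    exact edge1 hNpos comb h0 h1 h4 h5 h6 h7 hk u0 u1 u4 u5 u6 u7 uk (by linarith)
      (by simpa using hC) (by simpa using hB0) (by simpa using hB3) (by simpa using hD0)
      (by simpa using hD3)
  · rcases mult_cases hNpos hC (by linarith) (by linarith) with hC | hC | hC
    · -- everything lies on the edge `C = 0`
      obtain ⟨z1, z4, z5, z6, z7, z12, z13, z14, z15, zk⟩ :=
        zeros10 h1 h4 h5 h6 h7 h12 h13 h14 h15 hk (by linarith)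
      subst z1 z4 z5 z6 z7 z12 z13 z14 z15 zk
      exact edge2 hNpos comb h0 h2 h3 h8 h9 h10 h11 u0 u2 u3 u8 u9 u10 u11 (by linarith)
        (by linarith) (by simpa using hB0) (by simpa using hB3) (by simpa using hD0)
        (by simpa using hD3)
    · -- everything lies on the edge `A + C = 2`
      obtain ⟨z0, z4, z5, z6, z7, z8, z9, z10, z11, -⟩ :=
        zeros10 h0 h4 h5 h6 h7 h8 h9 h10 h11 (le_refl 0) (by linarith)
      subst z0 z4 z5 z6 z7 z8 z9 z10 z11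
      exact edge3 hNpos comb h1 h2 h3 h12 h13 h14 h15 hk u12 u13 u14 u15 (by linarith)
        (by linarith) (by simpa using hB0) (by simpa using hB3) (by simpa using hD0)
        (by simpa using hD3)
    · linarith
  · -- `A` total: only the vertex fibre over `(2, 0)`
    obtain ⟨z0, z1, z4, z5, z6, z7, z8, z9, z10, z11⟩ :=
      zeros10 h0 h1 h4 h5 h6 h7 h8 h9 h10 h11 (by linarith)
    subst z0 z1 z4 z5 z6 z7 z8 z9 z10 z11
    obtain ⟨z12, z13, z14, z15, zk, -, -, -, -, -⟩ :=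
      zeros10 h12 h13 h14 h15 hk (le_refl 0) (le_refl 0) (le_refl 0) (le_refl 0) (le_refl 0)
        (by linarith)
    subst z12 z13 z14 z15 zk
    exact two hNpos h3 h2 u3 u2 (by linarith) (comb _ (by simpa using hB0) (by simpa using hB3))

end Pool.Agent.W25.EGZ
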